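import Pool.Agent.Lib.MP_abd978_an.H7.Barrier

/-!
# Project ABD, modules PMIN and PMAX
-/

set_option autoImplicit false

open MeasureTheory Metric Set Filter Topology ContDiff
open scoped Gradient RealInnerProductSpace

namespace Pool.Agent.Lib.MP_abd978_an.H7

variable {n : ℕ} {p : ℝ} {μ : Measure (E n)} {a : E n → E n → E n} {α β : ℝ}

/-- two-sided data near the sphere -/
theorem annulus_of_cont {y y' : E n} {R κ ρ : ℝ} {v : E n → ℝ} (hκ : 0 < κ)
    (hc : ContinuousOn v (ball y R \ closedBall y' κ)) (hK : closedBall y' κ ⊆ ball y ρ)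
    (hρR : ρ < R) {P : ℝ → Prop} (hP : IsOpen {t | P t}) (h : ∀ z ∈ sphere y ρ, P (v z)) :
    0 < ρ ∧ ∃ δ, 0 < δ ∧ δ < ρ ∧ ∀ x, |dist x y - ρ| ≤ δ →
      x ∈ ball y R \ closedBall y' κ ∧ P (v x) := by
  have hρ : 0 < ρ := by
    have h1 : y' ∈ ball y ρ := hK (mem_closedBall_self hκ.le)
    exact lt_of_le_of_lt dist_nonneg (mem_ball.1 h1)
  have hD : IsOpen (ball y R \ closedBall y' κ) := isOpen_ball.sdiff isClosed_closedBall
  have hO : IsOpen ((ball y R \ closedBall y' κ) ∩ v ⁻¹' {t | P t}) :=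
    hc.isOpen_inter_preimage hD hP
  have hsub : sphere y ρ ⊆ (ball y R \ closedBall y' κ) ∩ v ⁻¹' {t | P t} := by
    intro z hz
    refine ⟨⟨?_, ?_⟩, h z hz⟩
    · rw [mem_ball, mem_sphere.1 hz]
      exact hρR
    · intro hz'
      have h2 := mem_ball.1 (hK hz')
      rw [mem_sphere.1 hz] at h2
      exact lt_irrefl _ h2
  obtain ⟨δ, h1, h2, h3⟩ := exists_annulus hρ hO hsub
  exact ⟨hρ, δ, h1, h2, fun x hx => h3 x hx⟩

theorem pmin (hcut : CutStatement) (hB : BchainStatement) (hP : PairStatement)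
    (hS : Sob1Statement) (hI : IntgStatement) : PminStatement := by
  intro n p μ a α β y R y' κ v ρ m hn hop hv hK hρR hm x hx
  obtain ⟨hκ, hKR, hv01, hc, g, V, hg, hg01, ⟨ε', hε', hg1⟩, h0, heq⟩ := hv
  have hD : IsOpen (ball y R \ closedBall y' κ) := isOpen_ball.sdiff isClosed_closedBall
  refine le_of_forall_pos_le_add fun ε hε => ?_
  obtain ⟨hρ, δ, hδ, hδρ, hann⟩ := annulus_of_cont (P := fun t => m - ε < t) hκ hc hK hρR
    isOpen_Ioi fun z hz => by
      have := hm z hz
      linarith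
  have hR : 0 < R := hρ.trans hρR
  have hm1 : m ≤ 1 := by
    obtain ⟨z, hz⟩ := exists_mem_sphere hn y hρ
    exact (hm z hz).trans (hv01 z).2
  suffices hmain : m - ε ≤ v x by linarith
  rcases le_or_gt (ρ - δ) (dist x y) with hd | hd
  · refine (hann x ?_).2.le
    rw [abs_le]
    have := mem_ball.1 hx.1
    constructor <;> linarith
  -- the cutoff function
  obtain ⟨C, hC, hcutn⟩ := hcut n
  obtain ⟨ζ, hζt, hζ01, hζ1, hζs, hζg⟩ := hcutn y (ρ - δ) (ρ + δ) (by linarith) (by linarith)
  have hρδ : ρ + δ < R := by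
    obtain ⟨z, hz⟩ := exists_mem_sphere hn y (show (0 : ℝ) < ρ + δ by linarith)
    have h1 := (hann z (by rw [mem_sphere.1 hz, add_sub_cancel_left, abs_of_pos hδ])).1.1
    rw [mem_ball, mem_sphere.1 hz] at h1
    exact h1
  have hvz : ∀ z, lowH (m - ε) (v z) • ∇ ζ z = 0 := by
    intro z
    by_cases hz1 : dist z y < ρ - δ
    · have h1 : ∇ ζ z = 0 := by
        refine grad_eq_zero_of_eventually (c := 1) ?_
        filter_upwards [isOpen_ball.mem_nhds (mem_ball.2 hz1)] with q hq
        exact hζ1 q (ball_subset_closedBall hq)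
      rw [h1, smul_zero]
    by_cases hz2 : dist z y ≤ ρ + δ
    · have h1 := (hann z (by
        rw [abs_le]
        constructor <;> linarith)).2
      rw [lowH_eq_zero.2 h1.le, zero_smul]
    · have h1 : ∇ ζ z = 0 := grad_eq_zero_of_notMem fun hz3 => hz2 (mem_closedBall.1 (hζs hz3))
      rw [h1, smul_zero]
  have hsupp : tsupport (fun z => ζ z * lowH (m - ε) (g z)) ⊆
      closedBall y (ρ + δ) ∩ (ball y' (κ + ε'))ᶜ := by
    refine closure_minimal (fun z hz => ⟨?_, fun hz' => ?_⟩)
      (isClosed_closedBall.inter isOpen_ball.isClosed_compl)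
    · refine hζs (subset_tsupport _ ?_)
      intro h1
      exact hz (by simp [h1])
    · have h1 := hg1 z (ball_subset_closedBall hz')
      refine hz ?_
      show ζ z * lowH (m - ε) (g z) = 0
      rw [h1, lowH_eq_zero.2 (by linarith : m - ε ≤ 1), mul_zero]
  have hts : tsupport (fun z => ζ z * lowH (m - ε) (g z)) ⊆ ball y R \ closedBall y' κ := by
    intro z hz
    have h1 := hsupp hz
    refine ⟨closedBall_subset_ball hρδ h1.1, fun h2 => h1.2 ?_⟩
    exact closedBall_subset_ball (by linarith) h2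
  have hcs : HasCompactSupport (fun z => ζ z * lowH (m - ε) (g z)) :=
    HasCompactSupport.of_support_subset_isCompact (isCompact_closedBall y (ρ + δ))
      fun z hz => (hsupp (subset_tsupport _ hz)).1
  have hfin := barrier hB hP hS hI hop hD hR sdiff_subset (hg.mono (subset_univ _)) h0 heq
    (contDiff_lowH (m - ε)) (L := max 2 (C / (ρ + δ - (ρ - δ))))
    (fun t => (abs_deriv_lowH _ t).trans (le_max_left _ _))
    (Or.inl (deriv_lowH_nonpos _)) hζt.1 (fun z => (hζ01 z).1)
    (fun z => by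
      rw [abs_of_nonneg (hζ01 z).1]
      exact ((hζ01 z).2.trans (by norm_num)).trans (le_max_left _ _))
    (fun z => (hζg z).trans (le_max_right _ _)) hvz hcs hts
  have hxD : x ∈ ball y R \ closedBall y' κ := ⟨ball_subset_ball hρR.le hx.1, hx.2⟩
  refine mem_of_ae (C := Ici (m - ε)) hop.toGeo (G := ball y (ρ - δ))
    (isOpen_ball.mem_nhds (mem_ball.2 hd)) (hc.continuousAt (hD.mem_nhds hxD)) isClosed_Ici ?_
  filter_upwards [hfin] with z hz hz1
  rw [hζ1 z (ball_subset_closedBall hz1), one_mul, lowH_eq_zero] at hz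
  exact hz

theorem pmax (hcut : CutStatement) (hB : BchainStatement) (hP : PairStatement)
    (hS : Sob1Statement) (hI : IntgStatement) : PmaxStatement := by
  intro n p μ a α β y R y' κ v ρ M hn hop hv hK hρR hM x hx
  obtain ⟨hκ, hKR, hv01, hc, g, V, hg, hg01, ⟨ε', hε', hg1⟩, h0, heq⟩ := hv
  have hD : IsOpen (ball y R \ closedBall y' κ) := isOpen_ball.sdiff isClosed_closedBall
  refine le_of_forall_pos_le_add fun ε hε => ?_
  obtain ⟨hρ, δ', hδ', hδρ', hann'⟩ := annulus_of_cont (P := fun t => t < M + ε) hκ hc hK hρR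
    isOpen_Iio fun z hz => by
      have := hM z hz
      linarith
  have hR : 0 < R := hρ.trans hρR
  have hM0 : 0 ≤ M := by
    obtain ⟨z, hz⟩ := exists_mem_sphere hn y hρ
    exact (hv01 z).1.trans (hM z hz)
  -- the closed ball is contained in a smaller ball
  obtain ⟨w, hw, hwmax⟩ := (isCompact_closedBall y' κ).exists_isMaxOn
    ⟨y', mem_closedBall_self hκ.le⟩ (f := fun z => dist z y) (by fun_prop)
  have hwρ : dist w y < ρ := mem_ball.1 (hK hw)
  set δ := min δ' ((ρ - dist w y) / 2) with hδdef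
  have hδ : 0 < δ := by
    rw [hδdef]
    exact lt_min hδ' (by linarith)
  have hδρ : δ < ρ := lt_of_le_of_lt (min_le_left _ _) hδρ'
  have hδw : dist w y < ρ - δ := by
    have := min_le_right δ' ((ρ - dist w y) / 2)
    rw [← hδdef] at this
    linarith
  have hann : ∀ x, |dist x y - ρ| ≤ δ → x ∈ ball y R \ closedBall y' κ ∧ v x < M + ε :=
    fun x hx => hann' x (hx.trans (min_le_left _ _))
  have hKδ : ∀ z ∈ closedBall y' κ, dist z y < ρ - δ := fun z hz =>
    lt_of_le_of_lt (hwmax hz) hδw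
  have hxy : ρ ≤ dist x y := by
    have := hx.2
    rw [mem_ball, not_lt] at this
    exact this
  rcases le_or_gt (dist x y) (ρ + δ) with hd | hd
  · refine (hann x ?_).2.le
    rw [abs_le]
    constructor <;> linarith
  -- the cutoff function
  obtain ⟨C, hC, hcutn⟩ := hcut n
  obtain ⟨ζ, hζt, hζ01, hζ1, hζs, hζg⟩ := hcutn y (ρ - δ) (ρ + δ) (by linarith) (by linarith)
  have hgrad : ∀ z, ∇ (fun q => 1 - ζ q) z = -∇ ζ z := by
    intro z
    have h1 := grad_sub (f := fun _ : E n => (1 : ℝ)) (g := ζ) (x := z)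
      (differentiableAt_const _) (hζt.1.differentiable (by simp) z)
    rw [h1]
    have h2 : ∇ (fun _ : E n => (1 : ℝ)) z = 0 :=
      grad_eq_zero_of_eventually (c := 1) (Eventually.of_forall fun _ => rfl)
    rw [h2, zero_sub]
  have hvz : ∀ z, upH (M + ε) (v z) • ∇ (fun q => 1 - ζ q) z = 0 := by
    intro z
    rw [hgrad]
    by_cases hz1 : dist z y < ρ - δ
    · have h1 : ∇ ζ z = 0 := by
        refine grad_eq_zero_of_eventually (c := 1) ?_
        filter_upwards [isOpen_ball.mem_nhds (mem_ball.2 hz1)] with q hq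
        exact hζ1 q (ball_subset_closedBall hq)
      rw [h1, neg_zero, smul_zero]
    by_cases hz2 : dist z y ≤ ρ + δ
    · have h1 := (hann z (by
        rw [abs_le]
        constructor <;> linarith)).2
      rw [upH_eq_zero.2 h1.le, zero_smul]
    · have h1 : ∇ ζ z = 0 := grad_eq_zero_of_notMem fun hz3 => hz2 (mem_closedBall.1 (hζs hz3))
      rw [h1, neg_zero, smul_zero]
  have hsupp : tsupport (fun z => (1 - ζ z) * upH (M + ε) (g z)) ⊆
      tsupport g ∩ (ball y (ρ - δ))ᶜ := by
    refine closure_minimal (fun z hz => ⟨?_, fun hz' => ?_⟩)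
      ((isClosed_tsupport g).inter isOpen_ball.isClosed_compl)
    · by_contra h1
      refine hz ?_
      show (1 - ζ z) * upH (M + ε) (g z) = 0
      rw [image_eq_zero_of_notMem_tsupport h1, upH_eq_zero.2 (by linarith : (0 : ℝ) ≤ M + ε),
        mul_zero]
    · refine hz ?_
      show (1 - ζ z) * upH (M + ε) (g z) = 0
      rw [hζ1 z (ball_subset_closedBall hz'), sub_self, zero_mul]
  have hts : tsupport (fun z => (1 - ζ z) * upH (M + ε) (g z)) ⊆ ball y R \ closedBall y' κ := by
    intro z hz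
    have h1 := hsupp hz
    exact ⟨hg.2.2 h1.1, fun h2 => h1.2 (mem_ball.2 (hKδ z h2))⟩
  have hcs : HasCompactSupport (fun z => (1 - ζ z) * upH (M + ε) (g z)) :=
    HasCompactSupport.of_support_subset_isCompact hg.2.1
      fun z hz => (hsupp (subset_tsupport _ hz)).1
  have hfin := barrier hB hP hS hI hop hD hR sdiff_subset (hg.mono (subset_univ _)) h0 heq
    (contDiff_upH (M + ε)) (L := max 2 (C / (ρ + δ - (ρ - δ))))
    (fun t => (abs_deriv_upH _ t).trans (le_max_left _ _))
    (Or.inr (deriv_upH_nonneg _)) (ζ := fun q => 1 - ζ q) (contDiff_const.sub hζt.1)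
    (fun z => by
      have := (hζ01 z).2
      linarith)
    (fun z => by
      have h1 := (hζ01 z).2
      have h2 := (hζ01 z).1
      rw [abs_of_nonneg (by linarith)]
      exact (by linarith : 1 - ζ z ≤ 2).trans (le_max_left _ _))
    (fun z => by
      rw [hgrad, norm_neg]
      exact (hζg z).trans (le_max_right _ _)) hvz hcs hts
  have hxD : x ∈ ball y R \ closedBall y' κ := ⟨hx.1, fun h2 => hx.2 (hK h2)⟩
  refine mem_of_ae (C := Iic (M + ε)) hop.toGeo (G := (closedBall y (ρ + δ))ᶜ)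
    (isClosed_closedBall.isOpen_compl.mem_nhds ?_) (hc.continuousAt (hD.mem_nhds hxD))
    isClosed_Iic ?_
  · intro h1
    exact absurd (mem_closedBall.1 h1) (not_le.2 hd)
  filter_upwards [hfin] with z hz hz1
  have h1 : ζ z = 0 := image_eq_zero_of_notMem_tsupport fun h2 => hz1 (hζs h2)
  rw [h1, sub_zero, one_mul, upH_eq_zero] at hz
  exact hz

end Pool.Agent.Lib.MP_abd978_an.H7
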