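import Pool.Agent.Lib.MP_abd978_an.Interfaces

/-!
# Project ABD, modules PMIN and PMAX: the barrier lemma
-/

set_option autoImplicit false

open MeasureTheory Metric Set Filter Topology ContDiff
open scoped Gradient RealInnerProductSpace

namespace Pool.Agent.Lib.MP_abd978_an.H7

/-! ### The function `H` -/

theorem deriv_glue (x : ℝ) : HasDerivAt expNegInvGlue ((x⁻¹) ^ 2 * expNegInvGlue x) x := by
  have h := expNegInvGlue.hasDerivAt_polynomial_eval_inv_mul 1 x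
  simpa using h

theorem deriv_glue_bound (x : ℝ) : 0 ≤ (x⁻¹) ^ 2 * expNegInvGlue x ∧
    (x⁻¹) ^ 2 * expNegInvGlue x ≤ 2 := by
  have h0 := expNegInvGlue.nonneg x
  refine ⟨by positivity, ?_⟩
  rcases le_or_gt x 0 with hx | hx
  · rw [expNegInvGlue.zero_of_nonpos hx]
    norm_num
  · have h1 : expNegInvGlue x = Real.exp (-x⁻¹) := by
      simp [expNegInvGlue, not_le.2 hx]
    rw [h1, Real.exp_neg]
    have h2 : 0 < x⁻¹ := inv_pos.2 hx
    have h3 := Real.quadratic_le_exp_of_nonneg h2.le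
    have h4 : 0 < Real.exp x⁻¹ := Real.exp_pos _
    rw [← div_eq_mul_inv, div_le_iff₀ h4]
    nlinarith

/-- `lowH s t` is smooth, zero for `t ≥ s`, positive for `t < s` -/
noncomputable def lowH (s t : ℝ) : ℝ := expNegInvGlue (s - t)

/-- `upH s t` is smooth, zero for `t ≤ s`, positive for `t > s` -/
noncomputable def upH (s t : ℝ) : ℝ := expNegInvGlue (t - s)

theorem contDiff_lowH (s : ℝ) : ContDiff ℝ ∞ (lowH s) :=
  expNegInvGlue.contDiff.comp (contDiff_const.sub contDiff_id)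

theorem contDiff_upH (s : ℝ) : ContDiff ℝ ∞ (upH s) :=
  expNegInvGlue.contDiff.comp (contDiff_id.sub contDiff_const)

theorem deriv_lowH (s t : ℝ) : deriv (lowH s) t = -(((s - t)⁻¹) ^ 2 * expNegInvGlue (s - t)) := by
  have h := (deriv_glue (s - t)).comp t ((hasDerivAt_id t).const_sub s)
  have h2 : HasDerivAt (lowH s) (((s - t)⁻¹) ^ 2 * expNegInvGlue (s - t) * -1) t := h
  rw [h2.deriv]
  ring

theorem deriv_upH (s t : ℝ) : deriv (upH s) t = ((t - s)⁻¹) ^ 2 * expNegInvGlue (t - s) := by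
  have h := (deriv_glue (t - s)).comp t ((hasDerivAt_id t).sub_const s)
  have h2 : HasDerivAt (upH s) (((t - s)⁻¹) ^ 2 * expNegInvGlue (t - s) * 1) t := h
  rw [h2.deriv]
  ring

theorem deriv_lowH_nonpos (s t : ℝ) : deriv (lowH s) t ≤ 0 := by
  rw [deriv_lowH]
  have := (deriv_glue_bound (s - t)).1
  linarith

theorem deriv_upH_nonneg (s t : ℝ) : 0 ≤ deriv (upH s) t := by
  rw [deriv_upH]
  exact (deriv_glue_bound (t - s)).1

theorem abs_deriv_lowH (s t : ℝ) : |deriv (lowH s) t| ≤ 2 := by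
  rw [deriv_lowH, abs_neg, abs_of_nonneg (deriv_glue_bound (s - t)).1]
  exact (deriv_glue_bound (s - t)).2

theorem abs_deriv_upH (s t : ℝ) : |deriv (upH s) t| ≤ 2 := by
  rw [deriv_upH, abs_of_nonneg (deriv_glue_bound (t - s)).1]
  exact (deriv_glue_bound (t - s)).2

theorem lowH_eq_zero {s t : ℝ} : lowH s t = 0 ↔ s ≤ t := by
  rw [lowH, expNegInvGlue.zero_iff_nonpos, sub_nonpos]

theorem upH_eq_zero {s t : ℝ} : upH s t = 0 ↔ t ≤ s := by
  rw [upH, expNegInvGlue.zero_iff_nonpos, sub_nonpos]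

/-! ### The barrier lemma -/

variable {n : ℕ} {p : ℝ} {μ : Measure (E n)} {a : E n → E n → E n} {α β : ℝ}

theorem aV_pos (hop : Op p μ a α β) (x ξ : E n) (h : ξ ≠ 0) : 0 < ⟪a x ξ, ξ⟫ := by
  have h1 := hop.ell x ξ
  have h2 : 0 < ‖ξ‖ ^ p := Real.rpow_pos_of_pos (norm_pos_iff.2 h) _
  have h3 := mul_pos hop.hα h2
  linarith

theorem aV_nonneg (hop : Op p μ a α β) (x ξ : E n) : 0 ≤ ⟪a x ξ, ξ⟫ := by
  have h1 := hop.ell x ξ
  have h2 : 0 ≤ ‖ξ‖ ^ p := Real.rpow_nonneg (norm_nonneg _) _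
  have h3 := mul_nonneg hop.hα.le h2
  linarith

/-- an element of `H_0` of a ball with zero gradient is zero -/
theorem eq_zero_of_grad (hS : Sob1Statement) (hg : Geo p μ) {z : E n} {r : ℝ} (hr : 0 < r)
    {Ψ : E n → ℝ} {W : E n → E n} (h : H0 μ p (ball z r) Ψ W) (hW : ∀ᵐ x ∂μ, W x = 0) :
    ∀ᵐ x ∂μ, Ψ x = 0 := by
  obtain ⟨C, -, hC⟩ := hS n p μ hg
  have h1 := hC z r Ψ W hr h
  have hp0 : 0 < p := lt_trans one_pos hg.hp
  have h2 : ∫ x, ‖W x‖ ^ p ∂μ = 0 := by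
    have h3 : ∫ x, ‖W x‖ ^ p ∂μ = ∫ _x, (0 : ℝ) ∂μ := by
      refine integral_congr_ae ?_
      filter_upwards [hW] with x hx
      rw [hx, norm_zero, Real.zero_rpow hp0.ne']
    rw [h3, integral_zero]
  rw [h2, mul_zero] at h1
  have h4 : Integrable (fun x => |Ψ x| ^ p) μ := by
    have h5 := h.1.integrable_norm_rpow (by
      rw [ne_eq, ENNReal.ofReal_eq_zero, not_le]
      exact hp0) ENNReal.ofReal_ne_top
    rw [ENNReal.toReal_ofReal hp0.le] at h5
    exact h5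
  have h6 : ∫ x, |Ψ x| ^ p ∂μ = 0 :=
    le_antisymm h1 (integral_nonneg fun x => Real.rpow_nonneg (abs_nonneg _) _)
  have h7 := (integral_eq_zero_iff_of_nonneg (fun x => Real.rpow_nonneg (abs_nonneg (Ψ x)) p)
    h4).1 h6
  filter_upwards [h7] with x hx
  have h8 : |Ψ x| ^ p = 0 := hx
  rw [Real.rpow_eq_zero (abs_nonneg _) hp0.ne'] at h8
  exact abs_eq_zero.1 h8

/-- if `H' ` has a sign and `H(v) ∇ζ = 0`, `ζ H(g)` has compact support in `D`, then `ζ H(v) = 0` -/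
theorem barrier (hB : BchainStatement) (hP : PairStatement) (hS : Sob1Statement)
    (hI : IntgStatement) (hop : Op p μ a α β) {D : Set (E n)} (hD : IsOpen D) {y : E n} {R : ℝ}
    (hR : 0 < R) (hDR : D ⊆ ball y R) {v g : E n → ℝ} {V : E n → E n} (hg : Test univ g)
    (h0 : H0 μ p D (fun x => v x - g x) fun x => V x - ∇ g x) (heq : Eqn μ a D V)
    {H : ℝ → ℝ} (hH : ContDiff ℝ ∞ H) {L : ℝ} (hL : ∀ t, |deriv H t| ≤ L)
    (hsgn : (∀ t, deriv H t ≤ 0) ∨ ∀ t, 0 ≤ deriv H t) {ζ : E n → ℝ} (hζ : ContDiff ℝ ∞ ζ)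
    (hζ0 : ∀ x, 0 ≤ ζ x) (hζL : ∀ x, |ζ x| ≤ L) (hζg : ∀ x, ‖∇ ζ x‖ ≤ L)
    (hvz : ∀ x, H (v x) • ∇ ζ x = 0) (hcs : HasCompactSupport fun x => ζ x * H (g x))
    (hts : tsupport (fun x => ζ x * H (g x)) ⊆ D) :
    ∀ᵐ x ∂μ, ζ x * H (v x) = 0 := by
  have := hop.lf
  have h1 := hB n μ p D v V g ζ H L hop.hp hop.lf hD hg h0 hH hL hζ hζL hζg hcs hts
  have hV : MemLp V (ENNReal.ofReal p) μ := by
    have h6 := h0.2.1.add (hg.memLp_grad (μ := μ) (ENNReal.ofReal p))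
    have h7 : ((fun x => V x - ∇ g x) + fun x => ∇ g x) = V := by
      funext x
      simp
    rwa [h7] at h6
  have h2 := hP n p μ a α β D V _ _ hop hD (hV.restrict _) heq h1
  have h3 := (hI n p μ μ a α β V _ hop hV h1.2.1).1
  have h4 : ∀ x, ⟪a x (V x), H (v x) • ∇ ζ x + (ζ x * deriv H (v x)) • V x⟫ =
      ζ x * deriv H (v x) * ⟪a x (V x), V x⟫ := by
    intro x
    rw [hvz x, zero_add, inner_smul_right]
  have h5 : ∀ᵐ x ∂μ, ζ x * deriv H (v x) * ⟪a x (V x), V x⟫ = 0 := by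
    simp only [h4] at h2 h3
    rcases hsgn with hs | hs
    · have h6 : ∫ x, -(ζ x * deriv H (v x) * ⟪a x (V x), V x⟫) ∂μ = 0 := by
        rw [integral_neg, h2, neg_zero]
      have h7 := (integral_eq_zero_iff_of_nonneg (fun x => ?_) h3.neg).1 h6
      · filter_upwards [h7] with x hx
        have h8 : -(ζ x * deriv H (v x) * ⟪a x (V x), V x⟫) = 0 := hx
        linarith
      · show 0 ≤ -(ζ x * deriv H (v x) * ⟪a x (V x), V x⟫)
        have h8 : ζ x * deriv H (v x) ≤ 0 := mul_nonpos_of_nonneg_of_nonpos (hζ0 x) (hs _)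
        have h9 := mul_nonpos_of_nonpos_of_nonneg h8 (aV_nonneg hop x (V x))
        linarith
    · have h7 := (integral_eq_zero_iff_of_nonneg (fun x => ?_) h3).1 h2
      · exact h7
      · show 0 ≤ ζ x * deriv H (v x) * ⟪a x (V x), V x⟫
        exact mul_nonneg (mul_nonneg (hζ0 x) (hs _)) (aV_nonneg hop x (V x))
  have h6 : ∀ᵐ x ∂μ, H (v x) • ∇ ζ x + (ζ x * deriv H (v x)) • V x = 0 := by
    filter_upwards [h5] with x hx
    rw [hvz x, zero_add]
    by_cases hx0 : V x = 0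
    · rw [hx0, smul_zero]
    · have h7 := (aV_pos hop x (V x) hx0).ne'
      rcases mul_eq_zero.1 hx with h8 | h8
      · rw [h8, zero_smul]
      · exact absurd h8 h7
  exact eq_zero_of_grad hS hop.toGeo hR (h1.mono hDR) h6

/-! ### Elementary geometry and topology -/

/-- a neighbourhood of a sphere contains an annulus -/
theorem exists_annulus {y : E n} {ρ : ℝ} (hρ : 0 < ρ) {O : Set (E n)} (hO : IsOpen O)
    (h : sphere y ρ ⊆ O) : ∃ δ, 0 < δ ∧ δ < ρ ∧ ∀ x, |dist x y - ρ| ≤ δ → x ∈ O := by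
  obtain ⟨δ, hδ, h1⟩ := (isCompact_sphere y ρ).exists_cthickening_subset_open hO h
  refine ⟨min δ (ρ / 2), by positivity, ?_, fun x hx => h1 ?_⟩
  · exact lt_of_le_of_lt (min_le_right _ _) (by linarith)
  · have hx1 : |dist x y - ρ| ≤ δ := hx.trans (min_le_left _ _)
    have hx2 : |dist x y - ρ| ≤ ρ / 2 := hx.trans (min_le_right _ _)
    have hd : 0 < dist x y := by
      have := (abs_le.1 hx2).1
      linarith
    have hz : y + (ρ / dist x y) • (x - y) ∈ sphere y ρ := by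
      rw [mem_sphere, dist_eq_norm, add_sub_cancel_left, norm_smul, ← dist_eq_norm, Real.norm_eq_abs,
        abs_of_pos (div_pos hρ hd), div_mul_cancel₀ _ hd.ne']
    refine mem_cthickening_of_dist_le x _ δ _ hz ?_
    have h2 : x - (y + (ρ / dist x y) • (x - y)) = (1 - ρ / dist x y) • (x - y) := by
      module
    rw [dist_eq_norm, h2, norm_smul, Real.norm_eq_abs, ← dist_eq_norm x y]
    have h3 : |1 - ρ / dist x y| * dist x y = |dist x y - ρ| := by
      rw [← abs_of_pos hd, ← abs_mul, abs_of_pos hd]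
      congr 1
      field_simp
    rw [h3]
    exact hx1

/-- there is a point on every sphere -/
theorem exists_mem_sphere (hn : 1 ≤ n) (y : E n) {ρ : ℝ} (hρ : 0 < ρ) :
    ∃ z : E n, z ∈ sphere y ρ := by
  have : Nontrivial (E n) := by
    have : Nonempty (Fin n) := ⟨⟨0, hn⟩⟩
    infer_instance
  obtain ⟨z, hz⟩ := (NormedSpace.sphere_nonempty (x := y) (r := ρ)).2 hρ.le
  exact ⟨z, hz⟩

/-- a closed condition that holds almost everywhere near `x` holds at `x` -/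
theorem mem_of_ae (hg : Geo p μ) {x : E n} {v : E n → ℝ} {G : Set (E n)} (hG : G ∈ 𝓝 x)
    (hc : ContinuousAt v x) {C : Set ℝ} (hC : IsClosed C) (h : ∀ᵐ z ∂μ, z ∈ G → v z ∈ C) :
    v x ∈ C := by
  by_contra hcon
  have h1 : ∀ᶠ z in 𝓝 x, v z ∈ Cᶜ := hc.eventually (hC.isOpen_compl.mem_nhds hcon)
  obtain ⟨r, hr, h2⟩ := Metric.mem_nhds_iff.1 (Filter.inter_mem h1 hG)
  have h3 : μ (ball x r) = 0 := by
    refine measure_mono_null (fun z hz => ?_) (ae_iff.1 h)
    have h4 := h2 hz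
    intro h5
    exact h4.1 (h5 h4.2)
  have h4 := hg.pos x r hr
  rw [Measure.real, h3] at h4
  simp at h4

theorem grad_eq_zero_of_eventually {ζ : E n → ℝ} {x : E n} {c : ℝ} (h : ∀ᶠ z in 𝓝 x, ζ z = c) :
    ∇ ζ x = 0 := by
  have h1 : ζ =ᶠ[𝓝 x] fun _ => c := h
  rw [grad_eq, h1.fderiv_eq, fderiv_fun_const]
  simp

end Pool.Agent.Lib.MP_abd978_an.H7
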